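import Mathlib

/-!
# Partitions of a graph in which every class meets many edges

Counting edges with an endpoint in a set by sums over ordered pairs; minimal sets meeting more
than `u` edges; a maximal disjoint family of minimal sets.
-/

set_option autoImplicit false

open Finset

namespace Pool.Agent.Y660.JP

variable {V : Type*} [Fintype V]

/-- the number of edges with an endpoint in `X` -/
noncomputable def meets (G : SimpleGraph V) (X : Finset V) : ℕ :=
  {e ∈ G.edgeSet | ∃ v ∈ e, v ∈ X}.ncard

open Classical in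
/-- the adjacency matrix -/
noncomputable def A (G : SimpleGraph V) (v w : V) : ℤ := if G.Adj v w then 1 else 0

/-- the number of adjacent ordered pairs in `P × Q` -/
noncomputable def S (G : SimpleGraph V) (P Q : Finset V) : ℤ := ∑ v ∈ P, ∑ w ∈ Q, A G v w

lemma A_nonneg (G : SimpleGraph V) (v w : V) : 0 ≤ A G v w := by
  unfold A; split_ifs <;> norm_num

lemma A_le (G : SimpleGraph V) (v w : V) : A G v w ≤ 1 := by
  unfold A; split_ifs <;> norm_num

lemma A_self (G : SimpleGraph V) (v : V) : A G v v = 0 := by
  unfold A; simp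

lemma A_comm (G : SimpleGraph V) (v w : V) : A G v w = A G w v := by
  unfold A; rw [SimpleGraph.adj_comm]

lemma S_nonneg (G : SimpleGraph V) (P Q : Finset V) : 0 ≤ S G P Q :=
  Finset.sum_nonneg fun _ _ => Finset.sum_nonneg fun _ _ => A_nonneg _ _ _

lemma S_comm (G : SimpleGraph V) (P Q : Finset V) : S G P Q = S G Q P := by
  unfold S
  rw [Finset.sum_comm]
  exact Finset.sum_congr rfl fun _ _ => Finset.sum_congr rfl fun _ _ => A_comm _ _ _

variable [DecidableEq V]

lemma S_union_left (G : SimpleGraph V) {P P' : Finset V} (h : Disjoint P P') (Q : Finset V) :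
    S G (P ∪ P') Q = S G P Q + S G P' Q := by
  unfold S
  rw [Finset.sum_union h]

lemma S_union_right (G : SimpleGraph V) (P : Finset V) {Q Q' : Finset V} (h : Disjoint Q Q') :
    S G P (Q ∪ Q') = S G P Q + S G P Q' := by
  rw [S_comm, S_union_left G h, S_comm G Q, S_comm G Q']

lemma S_mono_right (G : SimpleGraph V) (P : Finset V) {Q Q' : Finset V} (h : Q ⊆ Q') :
    S G P Q ≤ S G P Q' := by
  unfold S
  exact Finset.sum_le_sum fun v _ =>
    Finset.sum_le_sum_of_subset_of_nonneg h fun _ _ _ => A_nonneg _ _ _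

lemma S_single_le (G : SimpleGraph V) (v : V) (Q : Finset V) : S G {v} Q ≤ Q.card := by
  unfold S
  rw [Finset.sum_singleton]
  calc ∑ w ∈ Q, A G v w ≤ ∑ w ∈ Q, (1 : ℤ) := Finset.sum_le_sum fun w _ => A_le _ _ _
    _ = Q.card := by simp

lemma S_eq_sum (G : SimpleGraph V) (P Q : Finset V) : S G P Q = ∑ v ∈ P, S G {v} Q := by
  unfold S
  exact Finset.sum_congr rfl fun v _ => by rw [Finset.sum_singleton]

lemma S_self_le (G : SimpleGraph V) (H : Finset V) :
    S G H H ≤ (H.card : ℤ) * ((H.card : ℤ) - 1) := by
  rw [S_eq_sum]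
  calc ∑ v ∈ H, S G {v} H ≤ ∑ v ∈ H, ((H.card : ℤ) - 1) := by
        apply Finset.sum_le_sum
        intro v hv
        have e : H = {v} ∪ H.erase v := by
          ext w; simp only [mem_union, mem_singleton, mem_erase]
          by_cases hw : w = v
          · subst hw; simp [hv]
          · simp [hw]
        have h1 : S G {v} H = S G {v} {v} + S G {v} (H.erase v) := by
          conv_lhs => rw [e]
          apply S_union_right
          simp
        have h2 : S G {v} {v} = 0 := by unfold S; simp [A_self]
        have h3 := S_single_le G v (H.erase v)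
        rw [Finset.card_erase_of_mem hv] at h3
        rw [h1, h2]
        have h4 : 1 ≤ H.card := Finset.card_pos.mpr ⟨v, hv⟩
        push_cast [Nat.cast_sub h4] at h3
        linarith
    _ = _ := by rw [Finset.sum_const, nsmul_eq_mul]

lemma two_meets (G : SimpleGraph V) (X : Finset V) :
    2 * (meets G X : ℤ) = 2 * S G X Xᶜ + S G X X := by
  classical
  let G' : SimpleGraph V :=
    { Adj := fun v w => G.Adj v w ∧ (v ∈ X ∨ w ∈ X)
      symm := ⟨fun v w h => ⟨h.1.symm, h.2.symm⟩⟩
      loopless := ⟨fun v h => G.loopless.irrefl v h.1⟩ }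
  have e1 : {e ∈ G.edgeSet | ∃ v ∈ e, v ∈ X} = G'.edgeSet := by
    ext e
    induction e using Sym2.ind with
    | _ a b =>
      simp only [Set.mem_ofPred_eq, SimpleGraph.mem_edgeSet, G', Sym2.mem_iff]
      constructor
      · rintro ⟨h, v, rfl | rfl, hv⟩
        · exact ⟨h, Or.inl hv⟩
        · exact ⟨h, Or.inr hv⟩
      · rintro ⟨h, hv | hv⟩
        · exact ⟨h, a, Or.inl rfl, hv⟩
        · exact ⟨h, b, Or.inr rfl, hv⟩
  have e2 := G'.sum_degrees_eq_twice_card_edges
  have e3 : meets G X = G'.edgeFinset.card := by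
    unfold meets
    rw [e1, Set.ncard_eq_toFinset_card']
    rfl
  have e4 : ∀ v, (G'.degree v : ℤ) = ∑ w, A G v w * (if v ∈ X ∨ w ∈ X then 1 else 0) := by
    intro v
    rw [← SimpleGraph.card_neighborFinset_eq_degree, SimpleGraph.neighborFinset_eq_filter,
      Finset.card_filter]
    push_cast
    apply Finset.sum_congr rfl
    intro w _
    unfold A
    by_cases h1 : G.Adj v w
    · by_cases h2 : v ∈ X ∨ w ∈ X
      · have : G'.Adj v w := ⟨h1, h2⟩
        simp [h1, h2, this]
      · have : ¬ G'.Adj v w := fun h => h2 h.2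
        simp [h1, h2, this]
    · have : ¬ G'.Adj v w := fun h => h1 h.1
      simp [h1, this]
  have e5 : 2 * (meets G X : ℤ) = ∑ v, ∑ w, A G v w * (if v ∈ X ∨ w ∈ X then 1 else 0) := by
    rw [e3, ← Finset.sum_congr rfl fun v _ => e4 v]
    exact_mod_cast e2.symm
  rw [e5, ← Finset.sum_add_sum_compl X]
  have f1 : ∑ v ∈ X, ∑ w, A G v w * (if v ∈ X ∨ w ∈ X then 1 else 0) = S G X Xᶜ + S G X X := by
    unfold S
    rw [← Finset.sum_add_distrib]
    apply Finset.sum_congr rfl
    intro v hv
    rw [← Finset.sum_add_sum_compl X, add_comm]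
    congr 1 <;> exact Finset.sum_congr rfl fun w _ => by simp [hv]
  have f2 : ∑ v ∈ Xᶜ, ∑ w, A G v w * (if v ∈ X ∨ w ∈ X then 1 else 0) = S G Xᶜ X := by
    unfold S
    apply Finset.sum_congr rfl
    intro v hv
    rw [Finset.mem_compl] at hv
    rw [← Finset.sum_add_sum_compl X]
    have g1 : ∑ w ∈ Xᶜ, A G v w * (if v ∈ X ∨ w ∈ X then 1 else 0) = 0 := by
      apply Finset.sum_eq_zero
      intro w hw
      rw [Finset.mem_compl] at hw
      simp [hv, hw]
    rw [g1, add_zero]
    exact Finset.sum_congr rfl fun w hw => by simp [hw]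
  rw [f1, f2, S_comm G Xᶜ X]
  ring

lemma meets_mono (G : SimpleGraph V) {X Y : Finset V} (h : X ⊆ Y) : meets G X ≤ meets G Y := by
  unfold meets
  apply Set.ncard_le_ncard
  · rintro e ⟨he, v, hv, hX⟩
    exact ⟨he, v, hv, h hX⟩
  · exact Set.toFinite _

lemma meets_empty (G : SimpleGraph V) : meets G ∅ = 0 := by
  unfold meets; simp

/-- removing a vertex from `X` loses exactly the edges from it to the complement of `X` -/
lemma meets_erase (G : SimpleGraph V) (X : Finset V) (v : V) (hv : v ∈ X) :
    (meets G X : ℤ) = meets G (X.erase v) + S G {v} Xᶜ := by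
  have h1 := two_meets G X
  have h2 := two_meets G (X.erase v)
  have e1 : X = {v} ∪ X.erase v := by
    ext w; simp only [mem_union, mem_singleton, mem_erase]
    by_cases hw : w = v
    · subst hw; simp [hv]
    · simp [hw]
  have d1 : Disjoint {v} (X.erase v) := by simp
  have e2 : (X.erase v)ᶜ = {v} ∪ Xᶜ := by
    ext w; simp only [mem_union, mem_singleton, mem_erase, mem_compl]
    tauto
  have d2 : Disjoint {v} Xᶜ := by simp [hv]
  have a0 : S G X Xᶜ = S G {v} Xᶜ + S G (X.erase v) Xᶜ := by
    conv_lhs => rw [show S G X Xᶜ = S G ({v} ∪ X.erase v) Xᶜ by rw [← e1]]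
    rw [S_union_left G d1]
  have a1 : S G X X = S G {v} {v} + 2 * S G {v} (X.erase v) + S G (X.erase v) (X.erase v) := by
    conv_lhs => rw [show S G X X = S G ({v} ∪ X.erase v) ({v} ∪ X.erase v) by rw [← e1]]
    rw [S_union_left G d1, S_union_right G _ d1, S_union_right G _ d1,
      S_comm G (X.erase v) {v}]
    ring
  have a2 : S G (X.erase v) (X.erase v)ᶜ = S G {v} (X.erase v) + S G (X.erase v) Xᶜ := by
    rw [e2, S_union_right G _ d2, S_comm G (X.erase v) {v}]
  have a3 : S G {v} {v} = 0 := by unfold S; simp [A_self]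
  rw [a0, a1, a3] at h1
  rw [a2] at h2
  linarith

/-- the local inequality for a minimal set -/
lemma key (G : SimpleGraph V) (H X : Finset V) (hX : Disjoint X H) (u : ℕ)
    (hdeg : ∀ v, v ∉ H → meets G {v} ≤ u) (hbig : u < meets G X)
    (hmin : ∀ v ∈ X, meets G (X.erase v) ≤ u) :
    2 * S G X H + S G X X + S G X (X ∪ H)ᶜ ≤ 2 * (u + min (H.card : ℤ) u) := by
  have hne : X.Nonempty := by
    rw [Finset.nonempty_iff_ne_empty]
    rintro rfl
    rw [meets_empty] at hbig
    omega
  have hcard : 2 ≤ X.card := by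
    by_contra hc
    have h1 : X.card = 1 := by
      have := Finset.card_pos.mpr hne
      omega
    obtain ⟨v, rfl⟩ := Finset.card_eq_one.mp h1
    have hv : v ∉ H := by
      intro h
      exact Finset.disjoint_left.mp hX (mem_singleton_self v) h
    have := hdeg v hv
    omega
  obtain ⟨v, hv, hvmin⟩ := Finset.exists_min_image X (fun v => S G {v} (X ∪ H)ᶜ) hne
  have hsum : (X.card : ℤ) * S G {v} (X ∪ H)ᶜ ≤ S G X (X ∪ H)ᶜ := by
    rw [S_eq_sum G X]
    calc (X.card : ℤ) * S G {v} (X ∪ H)ᶜ = ∑ w ∈ X, S G {v} (X ∪ H)ᶜ := by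
          rw [Finset.sum_const, nsmul_eq_mul]
      _ ≤ _ := Finset.sum_le_sum fun w hw => hvmin w hw
  have hhalf : 2 * S G {v} (X ∪ H)ᶜ ≤ S G X (X ∪ H)ᶜ := by
    have h0 := S_nonneg G {v} (X ∪ H)ᶜ
    have h2 : (2 : ℤ) ≤ X.card := by exact_mod_cast hcard
    nlinarith
  have hc : Xᶜ = H ∪ (X ∪ H)ᶜ := by
    ext w
    simp only [mem_union, mem_compl]
    have : w ∈ X → w ∉ H := fun h => Finset.disjoint_left.mp hX h
    tauto
  have hd : Disjoint H (X ∪ H)ᶜ := by
    rw [Finset.disjoint_left]
    intro w hw hw'
    simp only [mem_union, mem_compl] at hw'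
    tauto
  have h1 := two_meets G X
  have h2 := meets_erase G X v hv
  have h3 := hmin v hv
  have h4 : S G {v} H ≤ min (H.card : ℤ) u := by
    apply le_min (S_single_le G v H)
    have hv' : v ∉ H := Finset.disjoint_left.mp hX hv
    have h5 := two_meets G {v}
    have h6 : S G {v} {v} = 0 := by unfold S; simp [A_self]
    have h7 : S G {v} H ≤ S G {v} {v}ᶜ := by
      apply S_mono_right
      intro w hw
      simp only [mem_compl, mem_singleton]
      rintro rfl
      exact hv' hw
    have h8 : (meets G {v} : ℤ) ≤ u := by exact_mod_cast hdeg v hv'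
    rw [h6] at h5
    linarith
  rw [hc, S_union_right G _ hd] at h1
  rw [hc, S_union_right G _ hd] at h2
  have h3' : (meets G (X.erase v) : ℤ) ≤ u := by exact_mod_cast h3
  linarith

/-- minimal sets outside `H` meeting more than `u` edges -/
def Good (G : SimpleGraph V) (H : Finset V) (u : ℕ) (X : Finset V) : Prop :=
  Disjoint X H ∧ u < meets G X ∧ ∀ v ∈ X, meets G (X.erase v) ≤ u

lemma exists_good (G : SimpleGraph V) (H : Finset V) (u : ℕ) (Z : Finset V) (hZ : Disjoint Z H)
    (hu : u < meets G Z) : ∃ X ⊆ Z, Good G H u X := by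
  induction Z using Finset.strongInduction with
  | _ Z ih =>
    by_cases h : ∀ v ∈ Z, meets G (Z.erase v) ≤ u
    · exact ⟨Z, Subset.rfl, hZ, hu, h⟩
    · push Not at h
      obtain ⟨v, hv, hvu⟩ := h
      obtain ⟨X, hX, hgood⟩ := ih (Z.erase v) (Finset.erase_ssubset hv)
        (Finset.disjoint_of_subset_left (Finset.erase_subset _ _) hZ) hvu
      exact ⟨X, hX.trans (Finset.erase_subset _ _), hgood⟩

/-- the global inequality for a disjoint family of minimal sets -/
lemma glob (G : SimpleGraph V) (H : Finset V) (u : ℕ) (hdeg : ∀ v, v ∉ H → meets G {v} ≤ u)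
    (F : Finset (Finset V)) (hF : ∀ X ∈ F, Good G H u X)
    (hd : (F : Set (Finset V)).PairwiseDisjoint id) :
    S G univ univ ≤ (H.card : ℤ) * ((H.card : ℤ) - 1) +
      2 * (F.card : ℤ) * (u + min (H.card : ℤ) u) + 2 * meets G (F.biUnion id ∪ H)ᶜ := by
  set U := F.biUnion id with hU
  set Z := (U ∪ H)ᶜ with hZ
  have dUH : Disjoint U H := by
    rw [hU, Finset.disjoint_biUnion_left]
    intro X hX
    exact (hF X hX).1
  have dZ : Disjoint (U ∪ H) Z := disjoint_compl_right
  have hS : ∀ Q, S G U Q = ∑ X ∈ F, S G X Q := by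
    intro Q
    unfold S
    rw [hU, Finset.sum_biUnion hd]
    rfl
  have h1 : 2 * S G U H + S G U U ≤ 2 * (F.card : ℤ) * (u + min (H.card : ℤ) u) := by
    rw [hS, hS, Finset.mul_sum, ← Finset.sum_add_distrib]
    calc ∑ X ∈ F, (2 * S G X H + S G X U) ≤ ∑ X ∈ F, (2 * (u + min (H.card : ℤ) u)) := by
          apply Finset.sum_le_sum
          intro X hX
          have hg := hF X hX
          have hXU : X ⊆ U := by
            rw [hU]
            exact Finset.subset_biUnion_of_mem id hX
          have e : U = X ∪ (U \ X) := by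
            rw [Finset.union_sdiff_of_subset hXU]
          have h2 : S G X U = S G X X + S G X (U \ X) := by
            conv_lhs => rw [e]
            exact S_union_right G _ Finset.disjoint_sdiff
          have h3 : S G X (U \ X) ≤ S G X (X ∪ H)ᶜ := by
            apply S_mono_right
            intro w hw
            simp only [mem_compl, mem_union, mem_sdiff] at hw ⊢
            have := Finset.disjoint_left.mp dUH hw.1
            tauto
          have := key G H X hg.1 u hdeg hg.2.1 hg.2.2
          linarith
      _ = _ := by rw [Finset.sum_const, nsmul_eq_mul]; ring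
  have h2 := two_meets G Z
  have hZc : Zᶜ = U ∪ H := by rw [hZ, compl_compl]
  have h3 : (univ : Finset V) = (U ∪ H) ∪ Z := by rw [hZ, Finset.union_compl]
  have h4 : S G univ univ = S G H H + (2 * S G U H + S G U U) + (2 * S G Z Zᶜ + S G Z Z) := by
    rw [hZc, h3, S_union_left G dZ, S_union_right G _ dZ, S_union_right G _ dZ,
      S_comm G (U ∪ H) Z, S_union_left G dUH, S_union_right G _ dUH, S_union_right G _ dUH,
      S_comm G H U]
    ring
  have h5 := S_self_le G H
  rw [h4, ← h2]
  linarith

lemma family (G : SimpleGraph V) (H : Finset V) (u : ℕ) (hdeg : ∀ v, v ∉ H → meets G {v} ≤ u)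
    (r : ℕ) :
    (∃ F : Finset (Finset V), F.card = r ∧ (∀ X ∈ F, Good G H u X) ∧
      (F : Set (Finset V)).PairwiseDisjoint id) ∨
    ∃ q : ℕ, q < r ∧ S G univ univ ≤ (H.card : ℤ) * ((H.card : ℤ) - 1) +
      2 * (q : ℤ) * (u + min (H.card : ℤ) u) + 2 * u := by
  induction r with
  | zero => exact Or.inl ⟨∅, rfl, by simp, by simp⟩
  | succ r ih =>
    rcases ih with ⟨F, hc, hF, hd⟩ | ⟨q, hq, h⟩
    · by_cases hu : u < meets G (F.biUnion id ∪ H)ᶜ
      · left
        have dZ : Disjoint (F.biUnion id ∪ H)ᶜ H := by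
          rw [Finset.disjoint_left]
          intro w hw hw'
          simp only [mem_compl, mem_union] at hw
          tauto
        obtain ⟨X, hX, hg⟩ := exists_good G H u _ dZ hu
        have hXd : ∀ Y ∈ F, Disjoint X Y := by
          intro Y hY
          rw [Finset.disjoint_left]
          intro w hw hw'
          have := hX hw
          simp only [mem_compl, mem_union, mem_biUnion, id] at this
          exact this (Or.inl ⟨Y, hY, hw'⟩)
        have hne : X.Nonempty := by
          rw [Finset.nonempty_iff_ne_empty]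
          rintro rfl
          have := hg.2.1
          rw [meets_empty] at this
          omega
        have hXF : X ∉ F := by
          intro h
          have := hXd X h
          rw [disjoint_self] at this
          exact hne.ne_empty this
        refine ⟨insert X F, by rw [Finset.card_insert_of_notMem hXF, hc], ?_, ?_⟩
        · intro Y hY
          rcases Finset.mem_insert.mp hY with rfl | hY
          · exact hg
          · exact hF Y hY
        · rw [Finset.coe_insert, Set.pairwiseDisjoint_insert]
          exact ⟨hd, fun Y hY _ => hXd Y hY⟩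
      · right
        refine ⟨r, by omega, ?_⟩
        have := glob G H u hdeg F hF hd
        rw [hc] at this
        have h2 : (meets G (F.biUnion id ∪ H)ᶜ : ℤ) ≤ u := by exact_mod_cast not_lt.mp hu
        linarith
    · exact Or.inr ⟨q, by omega, h⟩

/-- from a disjoint family to a partition -/
lemma assemble (G : SimpleGraph V) (k T : ℕ) (hk : 1 ≤ k) (F : Finset (Finset V))
    (hF : ∀ X ∈ F, T ≤ meets G X) (hd : (F : Set (Finset V)).PairwiseDisjoint id)
    (hc : k ≤ F.card) : ∃ c : V → Fin k, ∀ i, T ≤ meets G (univ.filter fun v => c v = i) := by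
  classical
  obtain ⟨F', hF', hc'⟩ := Finset.exists_subset_card_eq hc
  let e : F' ≃ Fin k := Fintype.equivFinOfCardEq (by simpa using hc')
  have : NeZero k := ⟨by omega⟩
  let c : V → Fin k := fun v => if h : ∃ X : F', v ∈ (X : Finset V) then e h.choose else 0
  refine ⟨c, fun i => ?_⟩
  have hmem : ((e.symm i : F') : Finset V) ∈ F := hF' (e.symm i).2
  refine (hF _ hmem).trans (meets_mono G ?_)
  intro v hv
  rw [mem_filter]
  refine ⟨mem_univ _, ?_⟩
  have h : ∃ X : F', v ∈ (X : Finset V) := ⟨e.symm i, hv⟩
  have e1 : c v = e h.choose := dif_pos h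
  rw [e1]
  have e2 : h.choose = e.symm i := by
    by_contra hne
    have hne' : ((h.choose : F') : Finset V) ≠ ((e.symm i : F') : Finset V) := fun h' =>
      hne (Subtype.ext h')
    have := hd (hF' h.choose.2) hmem hne'
    exact Finset.disjoint_left.mp this h.choose_spec hv
  rw [e2, Equiv.apply_symm_apply]

lemma edges_eq (G : SimpleGraph V) : 2 * (G.edgeSet.ncard : ℤ) = S G univ univ := by
  have h := two_meets G univ
  have h1 : meets G univ = G.edgeSet.ncard := by
    unfold meets
    congr 1
    ext e
    simp only [Set.mem_ofPred_eq, mem_univ, and_true, and_iff_left_iff_imp]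
    intro _
    induction e using Sym2.ind with
    | _ a b => exact ⟨a, Sym2.mem_mk_left _ _⟩
  rw [h1] at h
  rw [h]
  have : S G univ (univ : Finset V)ᶜ = 0 := by
    unfold S; simp
  rw [this]; ring

/-- **Main theorem.** If the number `m` of edges is larger than
`t(t-1)/2 + (k-t-1)(u + min(t,u)) + u` for every `t < k`, then there is a partition into `k`
classes each of which meets more than `u` edges. -/
theorem main (G : SimpleGraph V) (k u : ℕ) (hk : 1 ≤ k)
    (hm : ∀ t : ℕ, t < k → (t : ℤ) * ((t : ℤ) - 1) +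
      2 * ((k : ℤ) - t - 1) * (u + min (t : ℤ) u) + 2 * u < 2 * (G.edgeSet.ncard : ℤ)) :
    ∃ c : V → Fin k, ∀ i, u < meets G (univ.filter fun v => c v = i) := by
  classical
  set H : Finset V := univ.filter fun v => u < meets G {v} with hH
  have hdeg : ∀ v, v ∉ H → meets G {v} ≤ u := by
    intro v hv
    rw [hH, mem_filter] at hv
    push Not at hv
    exact hv (mem_univ v)
  set F₁ : Finset (Finset V) := H.image fun v => {v} with hF₁
  have hF₁c : F₁.card = H.card :=
    Finset.card_image_of_injective _ fun a b h => Finset.singleton_injective h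
  have hF₁m : ∀ X ∈ F₁, u + 1 ≤ meets G X := by
    intro X hX
    rw [hF₁, mem_image] at hX
    obtain ⟨v, hv, rfl⟩ := hX
    rw [hH, mem_filter] at hv
    exact hv.2
  have hF₁d : (F₁ : Set (Finset V)).PairwiseDisjoint id := by
    intro X hX Y hY hne
    rw [hF₁, mem_coe, mem_image] at hX hY
    obtain ⟨v, _, rfl⟩ := hX
    obtain ⟨w, _, rfl⟩ := hY
    simp only [Function.onFun, id, disjoint_singleton]
    rintro rfl
    exact hne rfl
  by_cases hHk : k ≤ H.card
  · exact assemble G k (u + 1) hk F₁ hF₁m hF₁d (by rw [hF₁c]; exact hHk)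
  · push Not at hHk
    rcases family G H u hdeg (k - H.card) with ⟨F, hc, hF, hd⟩ | ⟨q, hq, h⟩
    · have hdis : ∀ X ∈ F₁, ∀ Y ∈ F, Disjoint X Y := by
        intro X hX Y hY
        rw [hF₁, mem_image] at hX
        obtain ⟨v, hv, rfl⟩ := hX
        rw [Finset.disjoint_singleton_left]
        intro h
        exact Finset.disjoint_left.mp (hF Y hY).1 h hv
      have hFF : Disjoint F₁ F := by
        rw [Finset.disjoint_left]
        intro X hX hX'
        have := hdis X hX X hX'
        rw [disjoint_self] at this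
        have h1 := hF₁m X hX
        rw [show X = ∅ from this, meets_empty] at h1
        omega
      refine assemble G k (u + 1) hk (F₁ ∪ F) ?_ ?_ ?_
      · intro X hX
        rcases mem_union.mp hX with hX | hX
        · exact hF₁m X hX
        · exact (hF X hX).2.1
      · rw [Finset.coe_union, Set.pairwiseDisjoint_union]
        exact ⟨hF₁d, hd, fun X hX Y hY _ => hdis X hX Y hY⟩
      · rw [Finset.card_union_of_disjoint hFF, hF₁c, hc]
        omega
    · exfalso
      have h1 := hm H.card hHk
      rw [edges_eq] at h1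
      have h2 : (q : ℤ) ≤ (k : ℤ) - H.card - 1 := by
        have : q + H.card + 1 ≤ k := by omega
        have : (q : ℤ) + H.card + 1 ≤ k := by exact_mod_cast this
        linarith
      have h3 : (0 : ℤ) ≤ u + min (H.card : ℤ) u := by positivity
      nlinarith

end Pool.Agent.Y660.JP
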