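import Pool.Agent.Y660.JP.Core

/-!
# The extremal graphs, and the arithmetic
-/

set_option autoImplicit false

open Finset

namespace Pool.Agent.Y660.JP

/-- `t` pairwise adjacent hubs and `s` pairwise nonadjacent vertices, each of which is adjacent to
the first `r` hubs -/
def ex (t r s : ℕ) : SimpleGraph (Fin t ⊕ Fin s) where
  Adj x y := match x, y with
    | .inl a, .inl b => a ≠ b
    | .inl a, .inr _ => a.val < r
    | .inr _, .inl b => b.val < r
    | .inr _, .inr _ => False
  symm := ⟨fun x y h => by
    rcases x with a | a <;> rcases y with b | b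
    · exact fun h' => h h'.symm
    · exact h
    · exact h
    · exact h⟩
  loopless := ⟨fun x h => by
    rcases x with a | a
    · exact h rfl
    · exact h⟩

lemma sum_lt (t r : ℕ) (hr : r ≤ t) : ∑ a : Fin t, (if a.val < r then (1 : ℤ) else 0) = r := by
  rw [Fin.sum_univ_eq_sum_range (fun i => if i < r then (1 : ℤ) else 0) t, Finset.sum_boole]
  have : (Finset.range t).filter (fun i => i < r) = Finset.range r := by
    ext i; simp only [mem_filter, mem_range]; omega
  rw [this, Finset.card_range]

lemma ex_ll (t r s : ℕ) (a b : Fin t) :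
    A (ex t r s) (.inl a) (.inl b) = 1 - (if a = b then 1 else 0) := by
  unfold A
  by_cases h : a = b
  · simp [ex, h]
  · simp [ex, h]

lemma ex_lr (t r s : ℕ) (a : Fin t) (b : Fin s) :
    A (ex t r s) (.inl a) (.inr b) = if a.val < r then 1 else 0 := by
  unfold A
  by_cases h : a.val < r <;> simp [ex, h]

lemma ex_rl (t r s : ℕ) (a : Fin s) (b : Fin t) :
    A (ex t r s) (.inr a) (.inl b) = if b.val < r then 1 else 0 := by
  unfold A
  by_cases h : b.val < r <;> simp [ex, h]

lemma ex_rr (t r s : ℕ) (a b : Fin s) : A (ex t r s) (.inr a) (.inr b) = 0 := by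
  unfold A
  simp [ex]

lemma ex_edges (t r s : ℕ) (hr : r ≤ t) :
    2 * ((ex t r s).edgeSet.ncard : ℤ) = t * ((t : ℤ) - 1) + 2 * (r * s) := by
  rw [edges_eq]
  unfold S
  rw [Fintype.sum_sum_type]
  simp only [Fintype.sum_sum_type, ex_ll, ex_lr, ex_rl, ex_rr]
  have h := sum_lt t r hr
  simp only [Finset.sum_add_distrib, Finset.sum_sub_distrib, Finset.sum_const, h,
    Finset.sum_ite_eq, Finset.mem_univ, if_true, Finset.card_univ, Fintype.card_fin,
    nsmul_eq_mul, mul_one, ← Finset.mul_sum]
  ring

/-- the degree of an outer vertex -/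
lemma ex_deg (t r s : ℕ) (hr : r ≤ t) (b : Fin s) : S (ex t r s) {.inr b} univ = r := by
  unfold S
  rw [Finset.sum_singleton, Fintype.sum_sum_type]
  simp only [ex_rl, ex_rr, Finset.sum_const_zero, add_zero]
  exact sum_lt t r hr

lemma meets_le (t r s : ℕ) (hr : r ≤ t) (X : Finset (Fin t ⊕ Fin s))
    (hX : ∀ a : Fin t, Sum.inl a ∉ X) : meets (ex t r s) X ≤ X.card * r := by
  have h1 := two_meets (ex t r s) X
  have h2 : S (ex t r s) X univ = S (ex t r s) X X + S (ex t r s) X Xᶜ := by
    rw [← Finset.union_compl X]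
    exact S_union_right _ _ disjoint_compl_right
  have h3 : S (ex t r s) X univ = X.card * r := by
    rw [S_eq_sum]
    calc ∑ v ∈ X, S (ex t r s) {v} univ = ∑ v ∈ X, (r : ℤ) := by
          apply Finset.sum_congr rfl
          intro v hv
          rcases v with a | b
          · exact absurd hv (hX a)
          · exact ex_deg t r s hr b
      _ = _ := by rw [Finset.sum_const, nsmul_eq_mul]
  have h4 := S_nonneg (ex t r s) X X
  have h5 : (meets (ex t r s) X : ℤ) ≤ X.card * r := by linarith
  exact_mod_cast h5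

/-- every partition into `k` classes has a class meeting few edges -/
lemma ex_bad (t r s k q : ℕ) (hr : r ≤ t) (ht : t < k) (hs : s < (q + 1) * (k - t))
    (c : Fin t ⊕ Fin s → Fin k) :
    ∃ i, meets (ex t r s) (univ.filter fun v => c v = i) ≤ q * r := by
  classical
  by_contra hcon
  push Not at hcon
  let I : Finset (Fin k) := (univ.image fun a : Fin t => c (.inl a))ᶜ
  have hI : k - t ≤ I.card := by
    have h1 : (univ.image fun a : Fin t => c (.inl a)).card ≤ t := by
      calc _ ≤ (univ : Finset (Fin t)).card := Finset.card_image_le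
        _ = t := by simp
    have h2 : I.card = k - (univ.image fun a : Fin t => c (.inl a)).card := by
      rw [Finset.card_compl, Fintype.card_fin]
    omega
  have hbig : ∀ i ∈ I, q + 1 ≤ (univ.filter fun b : Fin s => c (.inr b) = i).card := by
    intro i hi
    have hno : ∀ a : Fin t, (Sum.inl a : Fin t ⊕ Fin s) ∉ univ.filter fun v => c v = i := by
      intro a ha
      rw [mem_filter] at ha
      have : i ∉ (univ.image fun a : Fin t => c (.inl a)) := by
        simpa [I] using hi
      exact this (mem_image.mpr ⟨a, mem_univ _, ha.2⟩)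
    have h1 := meets_le t r s hr _ hno
    have h2 := hcon i
    have h3 : (univ.filter fun v => c v = i).card =
        (univ.filter fun b : Fin s => c (.inr b) = i).card := by
      have : (univ.filter fun v => c v = i) =
          (univ.filter fun b : Fin s => c (.inr b) = i).image Sum.inr := by
        ext v
        rcases v with a | b
        · constructor
          · intro h; exact absurd h (hno a)
          · intro h; simp at h
        · simp
      rw [this, Finset.card_image_of_injective _ Sum.inr_injective]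
    rw [h3] at h1
    have h4 : q * r < (univ.filter fun b : Fin s => c (.inr b) = i).card * r :=
      lt_of_lt_of_le h2 h1
    exact Nat.lt_of_mul_lt_mul_right h4
  have h1 : I.card * (q + 1) ≤ ∑ i ∈ I, (univ.filter fun b : Fin s => c (.inr b) = i).card := by
    rw [← smul_eq_mul, ← Finset.sum_const]
    exact Finset.sum_le_sum hbig
  have h2 : ∑ i ∈ I, (univ.filter fun b : Fin s => c (.inr b) = i).card ≤ s := by
    calc _ ≤ ∑ i : Fin k, (univ.filter fun b : Fin s => c (.inr b) = i).card :=
          Finset.sum_le_sum_of_subset (subset_univ _)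
      _ = (univ : Finset (Fin s)).card :=
          (Finset.card_eq_sum_card_fiberwise (fun _ _ => mem_univ _)).symm
      _ = s := by simp
  have h3 : (k - t) * (q + 1) ≤ I.card * (q + 1) := Nat.mul_le_mul_right _ hI
  have h4 : (k - t) * (q + 1) = (q + 1) * (k - t) := mul_comm _ _
  omega

lemma two_choose (k : ℕ) : 2 * ((k.choose 2 : ℕ) : ℤ) = k * ((k : ℤ) - 1) := by
  have h := Nat.cast_choose_two ℚ k
  have h2 : (2 : ℚ) * ((k.choose 2 : ℕ) : ℚ) = k * ((k : ℚ) - 1) := by rw [h]; ring
  exact_mod_cast h2

/-! ### Arithmetic -/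

lemma arith_half (k u m t : ℤ) (hu : 0 ≤ u) (h1 : 3 * k * u + 1 ≤ 2 * m)
    (h2 : k * (k - 1) ≤ 2 * m) (ht : 0 ≤ t) (htk : t ≤ k - 1) :
    t * (t - 1) + 2 * (k - t - 1) * (u + min t u) + 2 * u < 2 * m := by
  rcases le_total t u with h | h
  · rw [min_eq_left h]
    rcases le_or_gt k (3 * u + 2) with hk | hk
    · have hmain : t * (2 * k - t - 3 - 2 * u) ≤ k * u := by
        rcases le_or_gt k (2 * u + 1) with hk2 | hk2
        · have a1 : t * (2 * k - t - 3 - 2 * u) ≤ t * k :=
            mul_le_mul_of_nonneg_left (by linarith) ht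
          have a2 : t * k ≤ u * k := mul_le_mul_of_nonneg_right h (by linarith)
          linarith
        · have a1 : 0 ≤ (u - t) * (2 * k - 3 - 3 * u - t) :=
            mul_nonneg (by linarith) (by linarith)
          have a2 : 0 ≤ u * (3 * u + 2 - k) := mul_nonneg hu (by linarith)
          nlinarith
      nlinarith
    · have a1 : 0 ≤ (u - t) * (2 * k - 3 - 3 * u - t) :=
        mul_nonneg (by linarith) (by linarith)
      have a2 : 0 < (k - 3 * u) * (k - u - 1) := mul_pos (by linarith) (by linarith)
      nlinarith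
  · rw [min_eq_right h]
    have a0 : 0 ≤ (t - u) * (k - 1 - t) := mul_nonneg (by linarith) (by linarith)
    rcases le_or_gt k (3 * u + 2) with hk | hk
    · have a1 : 0 ≤ (3 * u + 2 - k) * (t - u) := mul_nonneg (by linarith) (by linarith)
      have a2 : 0 ≤ u * (3 * u + 2 - k) := mul_nonneg hu (by linarith)
      nlinarith
    · have a1 : 0 ≤ (k - 2 - 3 * u) * (k - 1 - t) := mul_nonneg (by linarith) (by linarith)
      nlinarith

lemma arith_sq (k u m t : ℤ) (hu : 0 ≤ u) (h1 : k * u + 1 ≤ m) (h2 : (k - 1) ^ 2 ≤ m)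
    (h3 : k - 2 ≤ u) (ht : 0 ≤ t) (htk : t ≤ k - 1) :
    t * (t - 1) + 2 * (k - t - 1) * (u + min t u) + 2 * u < 2 * m := by
  rcases le_or_gt t u with h | h
  · rw [min_eq_left h]
    have a1 : 0 ≤ t * (2 * u + 4 - 2 * k) := mul_nonneg ht (by linarith)
    have a2 : 0 ≤ t * (t - 1) := by
      rcases eq_or_lt_of_le ht with h0 | h0
      · rw [← h0]; simp
      · exact mul_nonneg ht (by linarith [Int.add_one_le_iff.mpr h0])
    nlinarith
  · have e1 : t = k - 1 := by linarith [Int.add_one_le_iff.mpr h]
    have e2 : u = k - 2 := by linarith [Int.add_one_le_iff.mpr h]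
    subst e1
    subst e2
    rw [min_eq_right (by linarith)]
    nlinarith [sq_nonneg (k - 2)]

lemma arith_thr (k u m t : ℤ) (hu : 0 ≤ u) (hk : 2 * u + 2 ≤ k)
    (h1 : u * (4 * k - 3 * u - 3) < 2 * m) (h2 : (k - 1) * (k - 2) + 2 * u < 2 * m)
    (ht : 0 ≤ t) (htk : t ≤ k - 1) :
    t * (t - 1) + 2 * (k - t - 1) * (u + min t u) + 2 * u < 2 * m := by
  rcases le_total t u with h | h
  · rw [min_eq_left h]
    have a1 : 0 ≤ (u - t) * (2 * k - 3 - 3 * u - t) :=
      mul_nonneg (by linarith) (by linarith)
    nlinarith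
  · rw [min_eq_right h]
    have a0 : 0 ≤ (t - u) * (k - 1 - t) := mul_nonneg (by linarith) (by linarith)
    rcases le_or_gt k (3 * u + 2) with hk | hk
    · have a1 : 0 ≤ (3 * u + 2 - k) * (t - u) := mul_nonneg (by linarith) (by linarith)
      nlinarith
    · have a1 : 0 ≤ (k - 2 - 3 * u) * (k - 1 - t) := mul_nonneg (by linarith) (by linarith)
      nlinarith

end Pool.Agent.Y660.JP
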